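import Pool.Agent.R690.Pm.Toric

set_option autoImplicit false

/-!
# Toric ideals of bounded powers of edge ideals are generated by symmetric exchange binomials

Alternating trails show that the degree vectors of maximum `c`-bounded `b`-matchings form a strongly
base orderable discrete polymatroid: for two of them, `u` and `v`, the difference `u - v` is a sum
of vectors `e_x - e_y` any subfamily of which can be subtracted from `u`. A tuple of bases is
connected by symmetric exchanges to a balanced one, and two balanced tuples with the same sum are
connected by the argument of Lasoń and Michałek for strongly base orderable matroids.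
-/

namespace Pool.Agent.Results.MP_69eae4_al.SymmetricExchange

open Pool.Agent.R690.Pm

/-- For every graph `G` on `{0, …, n-1}` with at least one edge, every positive `c` and every field
`K`: there is a largest `δ` with `(I(G)^δ)_c ≠ 0`, and the toric ideal of the minimal monomial
generating set of `(I(G)^δ)_c` is generated by its symmetric exchange binomials. -/
theorem result : ∀ (K : Type*) [Field K] (n : ℕ) (G : SimpleGraph (Fin n)),
    (∃ i j, G.Adj i j) → ∀ c : Fin n → ℕ, (∀ i, 0 < c i) →
    ∃ δ, IsGreatest {q | boundedPart c (edgeIdeal K G ^ q) ≠ ⊥} δ ∧
      RingHom.ker (toricMap K (minGens (boundedPart c (edgeIdeal K G ^ δ)))) =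
        exchangeIdeal K (minGens (boundedPart c (edgeIdeal K G ^ δ))) := by
  intro K _ n G hG c hc
  exact main K G hG c hc

end Pool.Agent.Results.MP_69eae4_al.SymmetricExchange
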